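import Mathlib
import Pool.Agent.W66.GE
import Pool.Agent.Zk53.CE.A

set_option autoImplicit false

/-!
# Two amplitudes, two bases, the same exponent: the sieve bound in one window

Adapted from `Pool.Agent.W66.GD`.
-/

namespace Pool.Agent.Zk53.CE

open Finset MeasureTheory Filter Topology
open Pool.Agent.W66 (no_mid_prime NN_bounds exp_small large_smooth_count)
open Pool.Agent.W66X (ysh measurable_ysh pert8 exp_ysh exp_consts)
open Pool.Agent.H305R2 (roughPart NN ff measurable_NN measurable_ff ff_nonneg ff_le_one ZZ ZZ_nonneg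
  ZZ_le_exp integral_ind integral_ind_le log_nat_tendsto)
open Pool.Agent.H447R2.ML (Sh sh_of)
open Pool.Agent.W66V (good bad measurableSet_good measurableSet_bad sh_range large_part joint_sift_log
  ratio_primorial size_exp main_bound Z32 Z32_nonneg)

/-- numerical bound for the error term -/
lemma err2 {R : ℕ} {Z δ a1 A X : ℝ} {p : ℕ} (hR : (R : ℝ) ≤ Real.exp (δ * p / 64)) (hZ : 0 ≤ Z)
    (ha1 : 0 ≤ a1) (h : A / X ≤ a1 * Real.exp (-(δ * p))) :
    (R : ℝ) ^ 8 * ((((R ^ 2 : ℕ) : ℝ) * (Z + 2)) ^ 2 *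
      Real.sqrt (A * ((R ^ 2 : ℕ) : ℝ) ^ 3 / X)) ≤
      ((Z + 2) ^ 2 * Real.sqrt a1) * Real.exp (-(17 * δ / 64 * p)) := by
  have hR0 : (0 : ℝ) ≤ R := Nat.cast_nonneg _
  have h2 : Real.sqrt (A * ((R ^ 2 : ℕ) : ℝ) ^ 3 / X) ≤
      (R : ℝ) ^ 3 * (Real.sqrt a1 * Real.exp (-(δ * p) / 2)) := by
    have h1 : A * ((R ^ 2 : ℕ) : ℝ) ^ 3 / X ≤
        ((R : ℝ) ^ 3 * (Real.sqrt a1 * Real.exp (-(δ * p) / 2))) ^ 2 := by
      have e1 : A * ((R ^ 2 : ℕ) : ℝ) ^ 3 / X = (R : ℝ) ^ 6 * (A / X) := by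
        push_cast; ring
      have e2 : ((R : ℝ) ^ 3 * (Real.sqrt a1 * Real.exp (-(δ * p) / 2))) ^ 2 =
          (R : ℝ) ^ 6 * (a1 * Real.exp (-(δ * p))) := by
        rw [mul_pow, mul_pow, Real.sq_sqrt ha1, ← Real.exp_nat_mul]
        push_cast
        ring_nf
      rw [e1, e2]
      exact mul_le_mul_of_nonneg_left h (by positivity)
    refine (Real.sqrt_le_sqrt h1).trans (le_of_eq (Real.sqrt_sq (by positivity)))
  have h3 : (R : ℝ) ^ 15 ≤ Real.exp (15 * (δ * p / 64)) := by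
    calc (R : ℝ) ^ 15 ≤ (Real.exp (δ * p / 64)) ^ 15 := pow_le_pow_left₀ hR0 hR 15
      _ = _ := by rw [← Real.exp_nat_mul]; push_cast; rfl
  push_cast at h2 ⊢
  calc (R : ℝ) ^ 8 * (((R : ℝ) ^ 2 * (Z + 2)) ^ 2 * Real.sqrt (A * ((R : ℝ) ^ 2) ^ 3 / X)) ≤
      (R : ℝ) ^ 8 * (((R : ℝ) ^ 2 * (Z + 2)) ^ 2 *
        ((R : ℝ) ^ 3 * (Real.sqrt a1 * Real.exp (-(δ * p) / 2)))) := by
        gcongr
    _ = (Z + 2) ^ 2 * Real.sqrt a1 * ((R : ℝ) ^ 15 * Real.exp (-(δ * p) / 2)) := by ring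
    _ ≤ (Z + 2) ^ 2 * Real.sqrt a1 * (Real.exp (15 * (δ * p / 64)) * Real.exp (-(δ * p) / 2)) := by
        gcongr
    _ = _ := by
        rw [← Real.exp_add]
        ring_nf

/-- the ratio of the two numbers -/
noncomputable def BB (α α' c : ℝ) (p : ℕ) : ℝ := Real.exp (c + (Real.log α' - Real.log α) * p)

open Classical in
/-- the sieve bound in one window -/
theorem window2 {α α' κ C κ' C' c : ℝ} (hα : 1 < α) (hαα : α < α') (hκ0 : 0 ≤ κ) (hκ : κ < α)
    (hκ0' : 0 ≤ κ') (hκ' : κ' < α') {g g' : ℕ → ℝ} (hg : ∀ p, |g p| ≤ C * κ ^ p)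
    (hg' : ∀ p, |g' p| ≤ C' * κ' ^ p) (b0 : ℝ) : ∃ K : ℝ, 0 < K ∧ ∀ᶠ p : ℕ in atTop, ∀ Y : ℝ,
      Real.log α * p + (b0 - 1 / 2) ≤ Y →
      ∫ y in Set.Ioc Y (Y + 1), (if good α p y ∧ good α' p
        (Real.log (BB α α' c p * Real.exp y + (g' p - BB α α' c p * g p))) then (1 : ℝ) else 0) ≤
        K * (Real.log p / p) ^ 2 := by
  have hα0 : 0 < α := by linarith
  have hα0' : 0 < α' := by linarith
  set L := Real.log α with hL
  set L' := Real.log α' with hL'
  have hLpos : 0 < L := Real.log_pos hα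
  have hLL : L < L' := Real.log_lt_log hα0 hαα
  set δ := min L (L' - L) with hδ
  have hδ0 : 0 < δ := lt_min hLpos (by linarith)
  have hδL : δ ≤ L := min_le_left _ _
  have hδL' : δ ≤ L' - L := min_le_right _ _
  obtain ⟨C1, hC1, hrat⟩ := ratio_primorial
  obtain ⟨P1, hP1⟩ := eventually_atTop.1 hrat
  have hpert := pert8 hα0 hκ0 hκ hg (b0 - 1) 8
  obtain ⟨P2, hP2⟩ := eventually_atTop.1 hpert
  have hpert' := pert8 hα0' hκ0' hκ' hg' (b0 - 1 + c) 8
  obtain ⟨P3, hP3⟩ := eventually_atTop.1 hpert'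
  have hsm := exp_small (c := 17 * δ / 64) (by positivity)
  have hlarge : ∀ᶠ p : ℕ in atTop, (|b0| + |c| + 4) * 64 / (47 * L) < p :=
    tendsto_natCast_atTop_atTop.eventually_gt_atTop _
  have hlarge2 : ∀ᶠ p : ℕ in atTop, |c| / δ < p :=
    tendsto_natCast_atTop_atTop.eventually_gt_atTop _
  set a1 := Real.exp (-(b0 - 1 / 2)) + 2 * Real.exp (-c) with ha1
  have ha10 : 0 ≤ a1 := by positivity
  set a := (Z32 + 2) ^ 2 * Real.sqrt a1 with ha
  have hZ0 := Z32_nonneg
  have ha0 : 0 ≤ a := by positivity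
  refine ⟨4 * (256 * C1 / δ) ^ 2 + a, by positivity, ?_⟩
  filter_upwards [hsm, hlarge, hlarge2, eventually_ge_atTop P1, eventually_ge_atTop P2,
    eventually_ge_atTop P3, eventually_ge_atTop 2]
    with p hsmp hpl hpl2 hpP1 hpP2 hpP3 hp2 Y hY
  have hp2' : (2 : ℝ) ≤ p := by exact_mod_cast hp2
  have hp0 : (0 : ℝ) < p := by linarith
  have hb0abs := neg_abs_le b0
  have hb0abs' := le_abs_self b0
  have hcabs := neg_abs_le c
  have hcabs' := le_abs_self c
  have hbn := abs_nonneg b0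
  have hcn := abs_nonneg c
  rw [div_lt_iff₀ (by positivity)] at hpl
  rw [div_lt_iff₀ hδ0] at hpl2
  obtain ⟨M, hM0, hMl, hMr⟩ := hP1 p hpP1
  set β := BB α α' c p with hβ
  have hβe : β = Real.exp (c + (L' - L) * p) := rfl
  have hcp : 0 ≤ c + (L' - L) * p := by
    have h1 : p * δ ≤ p * (L' - L) := mul_le_mul_of_nonneg_left hδL' hp0.le
    linarith
  have hβ1 : 1 ≤ β := by rw [hβe]; exact Real.one_le_exp hcp
  have hβ0 : 0 < β := by linarith
  set κ₀ := g' p - β * g p with hκ₀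
  set E0 := Real.exp (L * p + (b0 - 1)) with hE0
  have hE0pos : 0 < E0 := Real.exp_pos _
  have hkb : |κ₀| ≤ β * E0 / 4 := by
    have h1 := hP2 p hpP2
    have h2 := hP3 p hpP3
    push_cast at h1 h2
    have h3 : Real.exp (L' * p + (b0 - 1 + c)) = β * E0 := by
      rw [hβe, hE0, ← Real.exp_add]; ring_nf
    have h2' : |g' p| ≤ β * E0 / 8 := by
      rw [← h3]; linarith
    have h4 : β * |g p| ≤ β * (E0 / 8) := mul_le_mul_of_nonneg_left (by linarith) hβ0.le
    calc |κ₀| ≤ |g' p| + |β * g p| := abs_sub _ _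
      _ = |g' p| + β * |g p| := by rw [abs_mul, abs_of_pos hβ0]
      _ ≤ _ := by linarith
  have hEY : E0 ≤ Real.exp Y := Real.exp_le_exp.2 (by linarith)
  have hY0 : 0 ≤ Y := by
    have h1 : 0 < L * p := by positivity
    linarith
  have hX1 : 1 ≤ Real.exp Y := Real.one_le_exp hY0
  -- the sieve level
  set R := ⌊Real.exp (δ * p / 64)⌋₊ with hR
  have hexp1 : 1 ≤ Real.exp (δ * p / 64) := Real.one_le_exp (by positivity)
  have hR1 : 1 ≤ R := by rw [hR, Nat.one_le_floor_iff]; exact hexp1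
  have hRle : (R : ℝ) ≤ Real.exp (δ * p / 64) := Nat.floor_le (Real.exp_pos _).le
  have hRgt : Real.exp (δ * p / 64) ≤ R + 1 := (Nat.lt_floor_add_one _).le
  have hRz : (R : ℝ) ≤ Real.exp (L * p / 64) := by
    refine hRle.trans (Real.exp_le_exp.2 ?_)
    have := mul_le_mul_of_nonneg_right hδL hp0.le
    linarith
  have hRz' : Real.exp (L * p / 64) ≤ Real.exp (L' * p / 64) := by
    refine Real.exp_le_exp.2 ?_
    have := mul_le_mul_of_nonneg_right hLL.le hp0.le
    linarith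
  set A := 1 + 2 * Real.exp Y / β with hA
  have hA1 : 1 ≤ A := by
    have : 0 ≤ 2 * Real.exp Y / β := by positivity
    linarith
  set ε := (((R ^ 2 : ℕ) : ℝ) * (Z32 + 2)) ^ 2 *
      Real.sqrt (A * ((R ^ 2 : ℕ) : ℝ) ^ 3 / Real.exp Y) with hε
  have hε0 : 0 ≤ ε := by positivity
  set f : ℝ → ℝ := fun y => if good α p y ∧ good α' p (Real.log (β * Real.exp y + κ₀)) then (1 : ℝ) else 0 with hf
  have hmeas : Measurable f := by
    refine Measurable.ite ?_ measurable_const measurable_const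
    refine (measurableSet_good α p).inter ?_
    have h1 : Measurable (fun y : ℝ => Real.log (β * Real.exp y + κ₀)) :=
      Real.measurable_log.comp ((Real.measurable_exp.const_mul _).add_const _)
    exact h1 (measurableSet_good α' p)
  obtain ⟨J, hJ0, hJ1, hJ2⟩ := joint_sift_log (R := R) (M := M) hR1 hM0 (ε := ε) (Y := Y) hε0
    (ψ := fun x => β * x + κ₀) (by fun_prop)
    (fun D E hD hD2 hE hE2 => corr_lin (Q := R ^ 2) (A := A) (β := β) (κ := κ₀) (X := Real.exp Y)
      (Nat.one_le_pow _ _ hR1) hA1 hβ1 hX1 le_rfl hD hD2 hE hE2)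
    (f := f)
    (by
      refine Measure.integrableOn_of_bounded (M := 1) (by simp) hmeas.aestronglyMeasurable ?_
      refine Eventually.of_forall fun y => ?_
      simp only [hf]
      split_ifs <;> simp)
    (fun y _ => by simp only [hf]; split_ifs <;> norm_num)
    (by
      intro y hy hfy
      have hgd : good α p y ∧ good α' p (Real.log (β * Real.exp y + κ₀)) := by
        by_contra hc
        simp only [hf] at hfy
        rw [if_neg hc] at hfy
        exact lt_irrefl _ hfy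
      obtain ⟨⟨g1, g2⟩, g3, g4⟩ := hgd
      have hyY : Real.exp Y < Real.exp y := Real.exp_lt_exp.2 hy.1
      have hpos : 3 / 4 * (β * Real.exp y) ≤ β * Real.exp y + κ₀ := by
        have h1 := (abs_le.1 hkb).1
        have h2 : β * E0 ≤ β * Real.exp y := mul_le_mul_of_nonneg_left (by linarith) hβ0.le
        linarith
      have hψ0 : 0 < β * Real.exp y + κ₀ := by
        have := mul_pos hβ0 (Real.exp_pos y)
        linarith
      obtain ⟨n1, n2⟩ := NN_bounds y
      obtain ⟨n3, n4⟩ := NN_bounds (Real.log (β * Real.exp y + κ₀))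
      rw [Real.exp_log hψ0] at n3 n4
      refine ⟨NN y, NN (Real.log (β * Real.exp y + κ₀)), n1, n2, n3, n4, fun l hl hlR hlM => ?_⟩
      have hql := hMl l hl hlM
      have hlz : (l : ℝ) ≤ Real.exp (L * p / 64) := by
        have : (l : ℝ) ≤ R := by exact_mod_cast hlR
        linarith
      constructor
      · refine no_mid_prime g1 g2 ?_ hl hql hlz
        rw [← Real.exp_add]
        have h1 := size_exp (u := L * p / 64 + L * p / 4) (v := Y) (by positivity) (by linarith)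
        linarith [Real.exp_pos Y]
      · refine no_mid_prime g3 g4 ?_ hl hql (hlz.trans hRz')
        rw [← Real.exp_add]
        have hLp : L * p ≤ L' * p := mul_le_mul_of_nonneg_right hLL.le hp0.le
        have h1 := size_exp (u := L' * p / 64 + L' * p / 4) (v := (c + (L' - L) * p) + Y)
          (by have : 0 < L * p := by positivity
              linarith) (by linarith)
        rw [Real.exp_add (c + (L' - L) * p) Y, ← hβe] at h1
        have h2 : β * Real.exp Y ≤ β * Real.exp y := mul_le_mul_of_nonneg_left hyY.le hβ0.le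
        linarith)
  refine hJ2.trans ?_
  have hm := main_bound hJ0 hC1 hδ0 hp2 (show p ≤ 2 * p by omega) hp2 hRgt hMr hJ1
  have hAX : A / Real.exp Y ≤ a1 * Real.exp (-(δ * p)) := by
    have e1 : A / Real.exp Y = Real.exp (-Y) + 2 * Real.exp (-(c + (L' - L) * p)) := by
      rw [hA, Real.exp_neg, Real.exp_neg, ← hβe]
      have := (Real.exp_pos Y).ne'
      field_simp
    rw [e1, ha1, add_mul, mul_assoc, ← Real.exp_add, ← Real.exp_add]
    have h1 : Real.exp (-Y) ≤ Real.exp (-(b0 - 1 / 2) + -(δ * p)) := by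
      refine Real.exp_le_exp.2 ?_
      have := mul_le_mul_of_nonneg_right hδL hp0.le
      linarith
    have h2 : Real.exp (-(c + (L' - L) * p)) ≤ Real.exp (-c + -(δ * p)) := by
      refine Real.exp_le_exp.2 ?_
      have := mul_le_mul_of_nonneg_right hδL' hp0.le
      linarith
    linarith
  have he := err2 (R := R) (Z := Z32) (δ := δ) (a1 := a1) (A := A) (X := Real.exp Y) (p := p)
    hRle hZ0 ha10 hAX
  have he2 : (R : ℝ) ^ 8 * ε ≤ a * (Real.log p / p) ^ 2 :=
    he.trans (mul_le_mul_of_nonneg_left hsmp ha0)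
  calc 4 / J ^ 2 + (R : ℝ) ^ 8 * ε ≤ 4 * (256 * C1 / δ) ^ 2 * (Real.log p / p) ^ 2 +
        a * (Real.log p / p) ^ 2 := add_le_add hm he2
    _ = _ := by ring

end Pool.Agent.Zk53.CE
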