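import Mathlib
import Pool.Agent.Zk53.CE.B

set_option autoImplicit false

/-!
# Two amplitudes, two bases, the same exponent: the probability that both numbers are prime

Adapted from `Pool.Agent.W66.GE`.
-/

namespace Pool.Agent.Zk53.CE

open Finset MeasureTheory Filter Topology
open Pool.Agent.W66 (no_mid_prime NN_bounds exp_small large_smooth_count)
open Pool.Agent.W66X (ysh measurable_ysh pert8 exp_ysh exp_consts)
open Pool.Agent.H305R2 (roughPart NN ff measurable_NN measurable_ff ff_nonneg ff_le_one ZZ ZZ_nonneg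
  ZZ_le_exp integral_ind integral_ind_le log_nat_tendsto)
open Pool.Agent.H447R2.ML (Sh sh_of)
open Pool.Agent.W66V (good bad measurableSet_good measurableSet_bad sh_range large_part)

/-- translation of a unit window -/
lemma shift_window (F : ℝ → ℝ) (b c : ℝ) :
    ∫ t in Set.Ioc b (b + 1), F (t + c) = ∫ t in Set.Ioc (b + c) (b + c + 1), F t := by
  rw [← intervalIntegral.integral_of_le (by linarith), ← intervalIntegral.integral_of_le (by linarith),
    intervalIntegral.integral_comp_add_right]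
  congr 1
  ring

open Classical in
/-- **the pair bound.** -/
theorem irr2 {α α' κ C κ' C' c : ℝ} (hα : 1 < α) (hαα : α < α') (hκ0 : 0 ≤ κ) (hκ : κ < α)
    (hκ0' : 0 ≤ κ') (hκ' : κ' < α') {g g' : ℕ → ℝ} (hg : ∀ p, |g p| ≤ C * κ ^ p)
    (hg' : ∀ p, |g' p| ≤ C' * κ' ^ p) (b0 : ℝ) : ∃ K : ℝ, 0 < K ∧ ∃ P : ℕ, ∀ p ≥ P,
      ∫ t in Set.Ioc b0 (b0 + 1), ff p (ysh α g p t) * ff p (ysh α' g' p (t + c)) ≤
      K * (Real.log p / p) ^ 2 := by
  have hα0 : 0 < α := by linarith
  have hα1' : 1 < α' := by linarith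
  have hα0' : 0 < α' := by linarith
  set L := Real.log α with hL
  set L' := Real.log α' with hL'
  have hLpos : 0 < L := Real.log_pos hα
  have hLL : L < L' := Real.log_lt_log hα0 hαα
  obtain ⟨K1, hK1, hW⟩ := window2 (c := c) hα hαα hκ0 hκ hκ0' hκ' hg hg' b0
  have hbig := large_part hα hκ0 hκ hg b0
  have hbig' := large_part hα1' hκ0' hκ' hg' (b0 + c)
  have hsh := sh_of hα0 hκ0 hκ hg b0 (b0 + 1)
  have hpert := pert8 hα0 hκ0 hκ hg b0 8
  have hsm := exp_small (c := 3 * L / 32) (by positivity)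
  obtain ⟨P, hP⟩ := eventually_atTop.1 (hW.and (hbig.and (hbig'.and (hsh.and (hpert.and (hsm.and
    (eventually_ge_atTop 3)))))))
  refine ⟨4 * K1 + 64, by positivity, P, fun p hp => ?_⟩
  obtain ⟨hWp, hbp, hbq, hshp, hpp, hsmp, hp3⟩ := hP p hp
  have hp3' : (3 : ℝ) ≤ p := by exact_mod_cast hp3
  have hp0 : (0 : ℝ) < p := by linarith
  set w := Real.log p / p with hw
  have hw0 : 0 ≤ w := div_nonneg (Real.log_natCast_nonneg p) hp0.le
  set β := BB α α' c p with hβ
  set G : ℝ → ℝ := fun y => if good α p y ∧ good α' p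
    (Real.log (β * Real.exp y + (g' p - β * g p))) then (1 : ℝ) else 0 with hG
  have hGm : Measurable G := by
    refine Measurable.ite ?_ measurable_const measurable_const
    refine (measurableSet_good α p).inter ?_
    have h1 : Measurable (fun y : ℝ => Real.log (β * Real.exp y + (g' p - β * g p))) :=
      Real.measurable_log.comp ((Real.measurable_exp.const_mul _).add_const _)
    exact h1 (measurableSet_good α' p)
  have hG0 : ∀ y, 0 ≤ G y := fun y => by simp only [hG]; split_ifs <;> norm_num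
  have hG1 : ∀ y, G y ≤ 1 := fun y => by simp only [hG]; split_ifs <;> norm_num
  set Bp : ℝ → ℝ := fun t => if bad α p (ysh α g p t) then (1 : ℝ) else 0 with hBp
  set Bs : ℝ → ℝ := fun t => if bad α' p (ysh α' g' p t) then (1 : ℝ) else 0 with hBs
  have hBp0 : ∀ t, 0 ≤ Bp t := fun y => by simp only [hBp]; split_ifs <;> norm_num
  have hBs0 : ∀ t, 0 ≤ Bs t := fun y => by simp only [hBs]; split_ifs <;> norm_num
  -- the relation between the two phases
  have hrel : ∀ t ∈ Set.Ioc b0 (b0 + 1), ysh α' g' p (t + c) =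
      Real.log (β * Real.exp (ysh α g p t) + (g' p - β * g p)) := by
    intro t ht
    rw [(exp_ysh hα0 hpp ht.1.le).1]
    unfold ysh
    congr 1
    have e1 : Real.exp (t + c) * α' ^ p = β * (Real.exp t * α ^ p) := by
      have e2 : α ^ p = Real.exp (L * p) := by
        rw [mul_comm, Real.exp_nat_mul, hL, Real.exp_log hα0]
      have e3 : α' ^ p = Real.exp (L' * p) := by
        rw [mul_comm, Real.exp_nat_mul, hL', Real.exp_log hα0']
      rw [hβ, BB, e2, e3, ← Real.exp_add, ← Real.exp_add, ← Real.exp_add]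
      congr 1
      ring
    rw [e1]
    ring
  have hpt : ∀ t ∈ Set.Ioc b0 (b0 + 1), ff p (ysh α g p t) * ff p (ysh α' g' p (t + c)) ≤
      Bp t + Bs (t + c) + G (ysh α g p t) := by
    intro t ht
    have e1 := hBp0 t
    have e2 := hBs0 (t + c)
    have e3 := hG0 (ysh α g p t)
    unfold ff
    by_cases h1 : (roughPart p (NN (ysh α g p t))).Prime
    · by_cases h2 : (roughPart p (NN (ysh α' g' p (t + c)))).Prime
      · rw [if_pos h1, if_pos h2, mul_one]
        by_cases h3 : bad α p (ysh α g p t)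
        · have : Bp t = 1 := by simp only [hBp]; rw [if_pos h3]
          linarith
        · by_cases h4 : bad α' p (ysh α' g' p (t + c))
          · have : Bs (t + c) = 1 := by simp only [hBs]; rw [if_pos h4]
            linarith
          · have h5 : good α p (ysh α g p t) := ⟨h1, by
              by_contra hc
              exact h3 ⟨h1, not_lt.1 hc⟩⟩
            have h6 : good α' p (ysh α' g' p (t + c)) := ⟨h2, by
              by_contra hc
              exact h4 ⟨h2, not_lt.1 hc⟩⟩
            rw [hrel t ht] at h6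
            have : G (ysh α g p t) = 1 := by simp only [hG]; rw [if_pos ⟨h5, h6⟩]
            linarith
      · rw [if_neg h2, mul_zero]; linarith
    · rw [if_neg h1, zero_mul]; linarith
  have hmy : Measurable (fun t => ff p (ysh α g p t)) := (measurable_ff p).comp (measurable_ysh _ _ _)
  have hmy' : Measurable (fun t => ff p (ysh α' g' p (t + c))) :=
    ((measurable_ff p).comp (measurable_ysh _ _ _)).comp (measurable_id.add_const c)
  have hint1 : IntegrableOn (fun t : ℝ => ff p (ysh α g p t) * ff p (ysh α' g' p (t + c)))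
      (Set.Ioc b0 (b0 + 1)) := by
    refine Measure.integrableOn_of_bounded (M := 1) (by simp) (hmy.mul hmy').aestronglyMeasurable ?_
    refine Eventually.of_forall fun t => ?_
    have h1 := ff_nonneg p (ysh α g p t)
    have h2 := ff_nonneg p (ysh α' g' p (t + c))
    have h3 := ff_le_one p (ysh α g p t)
    have h4 := ff_le_one p (ysh α' g' p (t + c))
    rw [Real.norm_eq_abs, abs_of_nonneg (mul_nonneg h1 h2)]
    exact mul_le_one₀ h3 h2 h4
  have hmBp : Measurable Bp :=
    Measurable.ite ((measurable_ysh α g p) (measurableSet_bad α p)) measurable_const measurable_const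
  have hmBs : Measurable Bs :=
    Measurable.ite ((measurable_ysh α' g' p) (measurableSet_bad α' p)) measurable_const measurable_const
  have hiBp : IntegrableOn Bp (Set.Ioc b0 (b0 + 1)) := by
    refine Measure.integrableOn_of_bounded (M := 1) (by simp) hmBp.aestronglyMeasurable ?_
    refine Eventually.of_forall fun t => ?_
    simp only [hBp]
    split_ifs <;> simp
  have hiBs : IntegrableOn (fun t => Bs (t + c)) (Set.Ioc b0 (b0 + 1)) := by
    refine Measure.integrableOn_of_bounded (M := 1) (by simp)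
      (hmBs.comp (measurable_id.add_const c)).aestronglyMeasurable ?_
    refine Eventually.of_forall fun t => ?_
    simp only [hBs]
    split_ifs <;> simp
  have hiG : IntegrableOn (fun t : ℝ => G (ysh α g p t)) (Set.Ioc b0 (b0 + 1)) := by
    refine Measure.integrableOn_of_bounded (M := 1) (by simp)
      (hGm.comp (measurable_ysh _ _ _)).aestronglyMeasurable ?_
    refine Eventually.of_forall fun t => ?_
    rw [Real.norm_eq_abs, abs_of_nonneg (hG0 _)]
    exact hG1 _
  have hstep : ∫ t in Set.Ioc b0 (b0 + 1), ff p (ysh α g p t) * ff p (ysh α' g' p (t + c)) ≤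
      (∫ t in Set.Ioc b0 (b0 + 1), Bp t) + (∫ t in Set.Ioc b0 (b0 + 1), Bs (t + c)) +
        ∫ t in Set.Ioc b0 (b0 + 1), G (ysh α g p t) := by
    have i1 : IntegrableOn (fun t => Bp t + Bs (t + c)) (Set.Ioc b0 (b0 + 1)) := hiBp.add hiBs
    rw [← integral_add hiBp hiBs, ← integral_add i1 hiG]
    exact setIntegral_mono_on hint1 (i1.add hiG) measurableSet_Ioc hpt
  -- the main part
  set Y := L * p + (b0 - 1 / 2) with hY
  have hrange := sh_range hshp hp3
  have hw1 := hWp Y le_rfl
  have hw2 := hWp (Y + 1) (by linarith)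
  have hcov := (Sh.cov hshp hp3 (s := b0) (t := b0 + 1) le_rfl (by linarith) le_rfl
      (F := G) hGm hG0 hG1).1
  have hGint : ∀ u v : ℝ, IntegrableOn G (Set.Ioc u v) := by
    intro u v
    refine Measure.integrableOn_of_bounded (M := 1) (by simp) hGm.aestronglyMeasurable ?_
    refine Eventually.of_forall fun t => ?_
    rw [Real.norm_eq_abs, abs_of_nonneg (hG0 _)]
    exact hG1 _
  have hmain : ∫ u in Set.Ioc (ysh α g p b0) (ysh α g p (b0 + 1)), G u ≤ 2 * K1 * w ^ 2 := by
    have r1 := (hrange b0 ⟨le_rfl, by linarith⟩).1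
    have r2 := (hrange (b0 + 1) ⟨by linarith, le_rfl⟩).2
    have r1' : Y < ysh α g p b0 := r1
    have r2' : ysh α g p (b0 + 1) ≤ Y + 2 := r2
    have hsub : Set.Ioc (ysh α g p b0) (ysh α g p (b0 + 1)) ⊆ Set.Ioc Y (Y + 1) ∪ Set.Ioc (Y + 1) (Y + 1 + 1) := by
      intro u hu
      rcases le_or_gt u (Y + 1) with hc | hc
      · exact Or.inl ⟨by linarith [hu.1], hc⟩
      · exact Or.inr ⟨hc, by linarith [hu.2]⟩
    calc ∫ u in Set.Ioc (ysh α g p b0) (ysh α g p (b0 + 1)), G u ≤
          ∫ u in Set.Ioc Y (Y + 1) ∪ Set.Ioc (Y + 1) (Y + 1 + 1), G u := by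
          refine setIntegral_mono_set ((hGint _ _).union (hGint _ _)) ?_ ?_
          · exact Eventually.of_forall hG0
          · exact (HasSubset.Subset.eventuallyLE hsub)
      _ = (∫ u in Set.Ioc Y (Y + 1), G u) + ∫ u in Set.Ioc (Y + 1) (Y + 1 + 1), G u := by
          refine setIntegral_union ?_ measurableSet_Ioc (hGint _ _) (hGint _ _)
          rw [Set.disjoint_left]
          intro u hu1 hu2
          exact absurd hu1.2 (not_le.2 hu2.1)
      _ ≤ K1 * w ^ 2 + K1 * w ^ 2 := add_le_add hw1 hw2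
      _ = _ := by ring
  have hGnn : 0 ≤ ∫ t in Set.Ioc b0 (b0 + 1), G (ysh α g p t) := integral_nonneg fun t => hG0 _
  have h4 : 1 / (p : ℝ) ≤ 1 / 2 := one_div_le_one_div_of_le (by norm_num) (by linarith)
  have hmain2 : ∫ t in Set.Ioc b0 (b0 + 1), G (ysh α g p t) ≤ 4 * K1 * w ^ 2 := by
    have h5 := mul_le_mul_of_nonneg_right (show 1 / 2 ≤ 1 - 1 / (p : ℝ) by linarith) hGnn
    have h6 : (1 - 1 / (p : ℝ)) * ∫ t in Set.Ioc b0 (b0 + 1), G (ysh α g p t) ≤ 2 * K1 * w ^ 2 :=
      le_trans hcov hmain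
    linarith
  have hBpb : ∫ t in Set.Ioc b0 (b0 + 1), Bp t ≤ 32 * w ^ 2 := by
    refine hbp.trans ?_
    linarith
  have hBqb : ∫ t in Set.Ioc b0 (b0 + 1), Bs (t + c) ≤ 32 * w ^ 2 := by
    rw [shift_window]
    refine hbq.trans ?_
    have h6 : Real.exp (-(3 * L' / 32 * (p : ℝ))) ≤ Real.exp (-(3 * L / 32 * p)) := by
      rw [Real.exp_le_exp]
      have := mul_le_mul_of_nonneg_right hLL.le hp0.le
      linarith
    linarith
  have hw20 : 0 ≤ w ^ 2 := sq_nonneg _
  calc _ ≤ _ := hstep
    _ ≤ 32 * w ^ 2 + 32 * w ^ 2 + 4 * K1 * w ^ 2 := add_le_add (add_le_add hBpb hBqb) hmain2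
    _ = (4 * K1 + 64) * w ^ 2 := by ring

end Pool.Agent.Zk53.CE
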