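import Mathlib
import Pool.Agent.Zk53.CE.C
import Pool.Agent.H447R2.ML.P9

set_option autoImplicit false

/-!
# Two amplitudes, two bases: almost surely only finitely many common exponents
-/

namespace Pool.Agent.Zk53.CE

open MeasureTheory Filter Topology
open Pool.Agent.W66X (ysh measurable_ysh pert8 exp_ysh exp_consts)
open Pool.Agent.H305R2 (roughPart NN ff measurable_NN measurable_ff ff_nonneg ff_le_one)
open Pool.Agent.H447R2.ML (ff_eq_floor ae_exp1)

lemma summable_logsq : Summable (fun p : ℕ => (Real.log p / p) ^ 2) := by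
  have h1 : Summable (fun p : ℕ => 16 * (p : ℝ) ^ (-(3 / 2) : ℝ)) :=
    (Real.summable_nat_rpow.2 (by norm_num)).mul_left 16
  refine Summable.of_nonneg_of_le (fun p => sq_nonneg _) (fun p => ?_) h1
  rcases Nat.eq_zero_or_pos p with h0 | hp
  · subst h0
    simp
  · have hp0 : (0 : ℝ) < p := by exact_mod_cast hp
    have h2 := Real.log_le_rpow_div hp0.le (show (0 : ℝ) < 1 / 4 by norm_num)
    have h3 : 0 ≤ Real.log p := Real.log_natCast_nonneg p
    have h4 : Real.log p / p ≤ 4 * (p : ℝ) ^ ((1 : ℝ) / 4) / p := by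
      refine div_le_div_of_nonneg_right ?_ hp0.le
      linarith
    calc (Real.log p / p) ^ 2 ≤ (4 * (p : ℝ) ^ ((1 : ℝ) / 4) / p) ^ 2 :=
          pow_le_pow_left₀ (div_nonneg h3 hp0.le) h4 2
      _ = 16 * (p : ℝ) ^ (-(3 / 2) : ℝ) := by
          have e1 : ((p : ℝ) ^ ((1 : ℝ) / 4)) ^ 2 = (p : ℝ) ^ ((1 : ℝ) / 2) := by
            rw [← Real.rpow_natCast, ← Real.rpow_mul hp0.le]; norm_num
          have e2 : (p : ℝ) ^ (-(3 / 2) : ℝ) = (p : ℝ) ^ ((1 : ℝ) / 2) / (p : ℝ) ^ 2 := by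
            rw [show (-(3 / 2) : ℝ) = 1 / 2 - 2 by norm_num, Real.rpow_sub hp0]
            norm_num
          rw [e2, div_pow, mul_pow, e1]
          ring

/-- almost surely only finitely many exponents are common -/
theorem fin2 {α α' κ C κ' C' c : ℝ} (hα : 1 < α) (hαα : α < α') (hκ0 : 0 ≤ κ) (hκ : κ < α)
    (hκ0' : 0 ≤ κ') (hκ' : κ' < α') {g g' : ℕ → ℝ} (hg : ∀ p, |g p| ≤ C * κ ^ p)
    (hg' : ∀ p, |g' p| ≤ C' * κ' ^ p) : ∀ᵐ t : ℝ, ∀ᶠ p : ℕ in atTop,
      ¬ (ff p (ysh α g p t) = 1 ∧ ff p (ysh α' g' p (t + c)) = 1) := by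
  have key : ∀ k : ℤ, ∀ᵐ t ∂(volume.restrict (Set.Ioc (k : ℝ) (k + 1))), ∀ᶠ p : ℕ in atTop,
      ¬ (ff p (ysh α g p t) = 1 ∧ ff p (ysh α' g' p (t + c)) = 1) := by
    intro k
    obtain ⟨K, hK, P, hP⟩ := irr2 (c := c) hα hαα hκ0 hκ hκ0' hκ' hg hg' k
    set μ := volume.restrict (Set.Ioc (k : ℝ) (k + 1)) with hμ
    set F : ℕ → ℝ → ℝ := fun p t => ff p (ysh α g p t) * ff p (ysh α' g' p (t + c)) with hF
    have hF0 : ∀ p t, 0 ≤ F p t := fun p t => mul_nonneg (ff_nonneg _ _) (ff_nonneg _ _)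
    have hF1 : ∀ p t, F p t ≤ 1 := fun p t => mul_le_one₀ (ff_le_one _ _) (ff_nonneg _ _) (ff_le_one _ _)
    have hFm : ∀ p, Measurable (F p) := fun p =>
      ((measurable_ff p).comp (measurable_ysh _ _ _)).mul
        (((measurable_ff p).comp (measurable_ysh _ _ _)).comp (measurable_id.add_const c))
    have hFi : ∀ p, Integrable (F p) μ := by
      intro p
      refine Integrable.of_bound (hFm p).aestronglyMeasurable 1 (Eventually.of_forall fun t => ?_)
      rw [Real.norm_eq_abs, abs_of_nonneg (hF0 p t)]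
      exact hF1 p t
    have hmeas : ∀ p, P ≤ p → μ {t | 1 ≤ F p t} ≤ ENNReal.ofReal (K * (Real.log p / p) ^ 2) := by
      intro p hp
      have h1 := mul_meas_ge_le_integral_of_nonneg (Eventually.of_forall (hF0 p)) (hFi p) 1
      rw [one_mul] at h1
      have h2 := h1.trans (hP p hp)
      rw [Measure.real] at h2
      exact (ENNReal.le_ofReal_iff_toReal_le (measure_ne_top _ _) (by positivity)).2 h2
    have hsum : ∑' p : ℕ, μ {t | P ≤ p ∧ 1 ≤ F p t} ≠ ⊤ := by
      have h1 : ∀ p : ℕ, μ {t | P ≤ p ∧ 1 ≤ F p t} ≤ ENNReal.ofReal (K * (Real.log p / p) ^ 2) := by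
        intro p
        by_cases hp : P ≤ p
        · refine le_trans (measure_mono fun t ht => ?_) (hmeas p hp)
          exact ht.2
        · have h0 : {t : ℝ | P ≤ p ∧ 1 ≤ F p t} = ∅ := by
            ext t
            simp [hp]
          rw [h0, measure_empty]
          exact bot_le
      refine ne_top_of_le_ne_top ?_ (ENNReal.tsum_le_tsum h1)
      rw [← ENNReal.ofReal_tsum_of_nonneg (fun p => by positivity) (summable_logsq.mul_left K)]
      exact ENNReal.ofReal_ne_top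
    filter_upwards [ae_eventually_notMem hsum] with t ht
    filter_upwards [ht, eventually_ge_atTop P] with p hp hpP h
    refine hp ⟨hpP, ?_⟩
    simp only [hF]
    rw [h.1, h.2, mul_one]
  have h1 : ∀ᵐ t ∂(volume.restrict (⋃ k : ℤ, Set.Ioc (k : ℝ) (k + 1))), ∀ᶠ p : ℕ in atTop,
      ¬ (ff p (ysh α g p t) = 1 ∧ ff p (ysh α' g' p (t + c)) = 1) := by
    rw [ae_restrict_iUnion_iff]
    exact key
  rwa [iUnion_Ioc_intCast, Measure.restrict_univ] at h1

/-- the same for the integral parts -/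
theorem fin_floor {α α' κ C κ' C' c : ℝ} (hα : 1 < α) (hαα : α < α') (hκ0 : 0 ≤ κ) (hκ : κ < α)
    (hκ0' : 0 ≤ κ') (hκ' : κ' < α') {g g' : ℕ → ℝ} (hg : ∀ p, |g p| ≤ C * κ ^ p)
    (hg' : ∀ p, |g' p| ≤ C' * κ' ^ p) : ∀ᵐ β : ℝ, 0 < β → ∀ᶠ p : ℕ in atTop,
      ¬ ((roughPart p ⌊β * α ^ p + g p⌋₊).Prime ∧
        (roughPart p ⌊Real.exp c * β * α' ^ p + g' p⌋₊).Prime) := by
  have hα0 : 0 < α := by linarith
  have hα0' : 0 < α' := by linarith
  refine ae_exp1 (P := fun β => ∀ᶠ p : ℕ in atTop,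
      ¬ ((roughPart p ⌊β * α ^ p + g p⌋₊).Prime ∧
        (roughPart p ⌊Real.exp c * β * α' ^ p + g' p⌋₊).Prime)) ?_
  have h2 : ∀ {γ : ℝ} (_ : 0 < γ) (G : ℕ → ℝ) (d : ℝ), ∀ᵐ t : ℝ, ∀ p m : ℕ,
      Real.exp (t + d) * γ ^ p + G p ≠ m := by
    intro γ hγ G d
    have hnull : volume (⋃ p : ℕ, ⋃ m : ℕ, {t : ℝ | Real.exp (t + d) * γ ^ p + G p = m}) = 0 := by
      refine Set.Countable.measure_zero ?_ volume
      refine Set.countable_iUnion fun p => Set.countable_iUnion fun m => ?_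
      refine Set.Subsingleton.countable ?_
      intro s hs t ht
      simp only [Set.mem_ofPred_eq] at hs ht
      have h3 : Real.exp (s + d) * γ ^ p = Real.exp (t + d) * γ ^ p := by linarith
      have h4 := Real.exp_injective (mul_right_cancel₀ (pow_pos hγ p).ne' h3)
      linarith
    have hae : ∀ᵐ t : ℝ, t ∉ ⋃ p : ℕ, ⋃ m : ℕ, {t : ℝ | Real.exp (t + d) * γ ^ p + G p = m} := by
      rw [ae_iff]
      refine measure_mono_null (fun t ht => ?_) hnull
      simpa only [Set.mem_ofPred_eq, not_not] using ht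
    filter_upwards [hae] with t ht p m hm
    refine ht ?_
    simp only [Set.mem_iUnion]
    exact ⟨p, m, hm⟩
  filter_upwards [fin2 (c := c) hα hαα hκ0 hκ hκ0' hκ' hg hg', h2 hα0 g 0, h2 hα0' g' c] with t ht n1 n2
  filter_upwards [ht, pert8 hα0 hκ0 hκ hg t 8, pert8 hα0' hκ0' hκ' hg' (t + c) 8] with p hp q1 q2 h
  have x1 := exp_ysh hα0 q1 (t := t) le_rfl
  have x2 := exp_ysh hα0' q2 (t := t + c) le_rfl
  refine hp ⟨?_, ?_⟩
  · have h3 := ff_eq_floor (p := p) x1.2.1 (fun m => by have := n1 p m; rwa [add_zero] at this)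
    rw [if_pos h.1] at h3
    exact h3
  · have h3 := ff_eq_floor (p := p) x2.2.1 (n2 p)
    rw [Real.exp_add, mul_comm (Real.exp t)] at h3
    rw [if_pos h.2] at h3
    unfold ysh
    rw [Real.exp_add, mul_comm (Real.exp t)]
    exact h3

end Pool.Agent.Zk53.CE
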