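import Mathlib
import Pool.Agent.Zk53.CE.E

set_option autoImplicit false

/-!
# Two amplitudes of rational quotient, the same base and exponent, different shifts: the pair bound
-/

namespace Pool.Agent.Zk53.CE

open Finset Filter Topology MeasureTheory
open Pool.Agent.W66 (NN_bounds exp_small large_smooth_count)
open Pool.Agent.W66X (ysh measurable_ysh pert8 exp_ysh exp_consts)
open Pool.Agent.H305R2 (roughPart ZZ ZZ_nonneg ZZ_le_exp ff NN measurable_ff measurable_NN ff_nonneg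
  ff_le_one log_nat_tendsto integral_ind integral_ind_le)
open Pool.Agent.H447R2.ML (Sh sh_of)

/-- multiplication by a small number does not change the rough part -/
lemma rough_mul {p w n : ℕ} (hw : w ≠ 0) (hn : n ≠ 0) (hwp : w ≤ p) :
    roughPart p (w * n) = roughPart p n := by
  unfold roughPart
  have h1 := (Nat.perm_primeFactorsList_mul hw hn).filter (fun r => decide (p < r))
  rw [h1.prod_eq, List.filter_append, List.prod_append]
  have h2 : w.primeFactorsList.filter (fun r => decide (p < r)) = [] := by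
    rw [List.filter_eq_nil_iff]
    intro r hr
    have h3 := Nat.le_of_mem_primeFactorsList hr
    simp only [decide_eq_true_eq, not_lt]
    omega
  rw [h2, List.prod_nil, one_mul]

lemma rough_zero (p : ℕ) : ¬ (roughPart p 0).Prime := by
  unfold roughPart
  simp [Nat.not_prime_one]

/-- counting in one window, for one difference -/
lemma count_T {u N0 N1 p : ℕ} {C2 E L Y : ℝ} {r : ℤ} (hu : 0 < u) (hN0 : 2 ≤ N0) (hN01 : N0 ≤ N1)
    (hN1r : (N1 : ℝ) ≤ 8 * E) (hE : 0 < E) (_hC2 : 0 < C2)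
    (hr2 : 2 * r.natAbs ≤ 2 * u * (N0 - 1))
    (hZ : ZZ p ≤ Real.exp (L / 32 * p)) (hYL : L / 2 * p ≤ Y)
    (hsm : Real.exp (-(3 * L / 32 * p)) ≤ (Real.log p / p) ^ 2)
    (hgood : ∀ S : Finset ℕ, S ⊆ Icc N0 N1 →
      (∀ N ∈ S, ((roughPart p N).Prime ∧ ((N / roughPart p N : ℕ) : ℝ) < Real.exp (Y / 2)) ∧
      ((roughPart p ((((2 * u) ^ 1 * N : ℕ) : ℤ) + r).toNat).Prime ∧
        (((((((2 * u) ^ 1 * N : ℕ) : ℤ) + r).toNat) / roughPart p (((((2 * u) ^ 1 * N : ℕ) : ℤ) + r).toNat) : ℕ) : ℝ) <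
          Real.exp (Y / 2))) →
      (S.card : ℝ) ≤ C2 * (Real.log p / p) ^ 2 * E) :
    ((((Icc N0 N1).filter (fun N => (roughPart p N).Prime ∧
      (roughPart p ((((2 * u) ^ 1 * N : ℕ) : ℤ) + r).toNat).Prime)).card : ℕ) : ℝ) ≤
      (C2 + 8 + 32 * u) * (Real.log p / p) ^ 2 * E := by
  classical
  set w2 := (Real.log p / p) ^ 2 with hw2
  set S := Real.exp (Y / 2) with hS
  have hS0 : 0 < S := Real.exp_pos _
  set z : ℕ → ℕ := fun N => ((((2 * u) ^ 1 * N : ℕ) : ℤ) + r).toNat with hz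
  have hzz : ∀ N, N0 ≤ N → ((z N : ℕ) : ℤ) = 2 * u * N + r := by
    intro N hN
    simp only [hz, pow_one]
    rw [Int.toNat_of_nonneg]
    · push_cast; ring
    · have h1 : 2 * u * (N0 - 1) ≤ 2 * u * N := Nat.mul_le_mul_left _ (by omega)
      have h2 : 2 * r.natAbs ≤ 2 * u * N := hr2.trans h1
      have h3 : (r.natAbs : ℤ) ≤ ((2 * u * N : ℕ) : ℤ) := by exact_mod_cast (by omega)
      have h4 : -(r.natAbs : ℤ) ≤ r := by omega
      linarith
  set T := (Icc N0 N1).filter (fun N => (roughPart p N).Prime ∧ (roughPart p (z N)).Prime) with hT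
  set B1 := T.filter (fun N => S ≤ ((N / roughPart p N : ℕ) : ℝ)) with hB1
  set B2 := T.filter (fun N => S ≤ ((z N / roughPart p (z N) : ℕ) : ℝ)) with hB2
  set G := T.filter (fun N => ((N / roughPart p N : ℕ) : ℝ) < S ∧
    ((z N / roughPart p (z N) : ℕ) : ℝ) < S) with hG
  have hsub : T ⊆ (B1 ∪ B2) ∪ G := by
    intro x hx
    rw [mem_union, mem_union]
    by_cases h1 : S ≤ ((x / roughPart p x : ℕ) : ℝ)
    · left; left; exact mem_filter.2 ⟨hx, h1⟩
    · by_cases h2 : S ≤ ((z x / roughPart p (z x) : ℕ) : ℝ)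
      · left; right; exact mem_filter.2 ⟨hx, h2⟩
      · right; exact mem_filter.2 ⟨hx, not_le.1 h1, not_le.1 h2⟩
  have hTm : ∀ N ∈ T, N0 ≤ N ∧ N ≤ N1 ∧ (roughPart p N).Prime ∧ (roughPart p (z N)).Prime := by
    intro N hN
    rw [hT, mem_filter, mem_Icc] at hN
    exact ⟨hN.1.1, hN.1.2, hN.2.1, hN.2.2⟩
  have hSm : S ^ (-(1 / 2) : ℝ) = Real.exp (-(Y / 4)) := by
    rw [hS, ← Real.exp_mul]; ring_nf
  have hSZ : S ^ (-(1 / 2) : ℝ) * ZZ p ≤ w2 := by
    rw [hSm]
    calc Real.exp (-(Y / 4)) * ZZ p ≤ Real.exp (-(Y / 4)) * Real.exp (L / 32 * p) :=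
          mul_le_mul_of_nonneg_left hZ (Real.exp_pos _).le
      _ = Real.exp (-(Y / 4) + L / 32 * p) := by rw [← Real.exp_add]
      _ ≤ Real.exp (-(3 * L / 32 * p)) := Real.exp_le_exp.2 (by linarith)
      _ ≤ w2 := hsm
  have hw20 : 0 ≤ w2 := sq_nonneg _
  have hSZ0 : 0 ≤ S ^ (-(1 / 2) : ℝ) * ZZ p := mul_nonneg (Real.rpow_nonneg hS0.le _) (ZZ_nonneg p)
  have hc1 : (B1.card : ℝ) ≤ 8 * E * w2 := by
    have h1 : B1 ⊆ (Icc 1 N1).filter (fun m => (roughPart p m).Prime ∧
        S ≤ ((m / roughPart p m : ℕ) : ℝ)) := by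
      intro N hN
      rw [hB1, mem_filter] at hN
      obtain ⟨k1, k2, k3, k4⟩ := hTm N hN.1
      rw [mem_filter, mem_Icc]
      exact ⟨⟨by omega, k2⟩, k3, hN.2⟩
    have h2 : (B1.card : ℝ) ≤ (((Icc 1 N1).filter (fun m => (roughPart p m).Prime ∧
        S ≤ ((m / roughPart p m : ℕ) : ℝ))).card : ℝ) := by exact_mod_cast Finset.card_le_card h1
    exact (h2.trans (large_smooth_count p N1 hS0)).trans (mul_le_mul hN1r hSZ hSZ0 (by positivity))
  have hc2 : (B2.card : ℝ) ≤ 32 * u * E * w2 := by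
    have h0 : B2.card = (B2.image z).card := by
      rw [Finset.card_image_of_injOn]
      intro x hx y hy hxy
      rw [Finset.mem_coe, hB2, mem_filter] at hx hy
      have e1 := hzz x (hTm x hx.1).1
      have e2 := hzz y (hTm y hy.1).1
      rw [hxy, e2] at e1
      have e3 : 2 * u * x = 2 * u * y := by
        have : ((2 * u * x : ℕ) : ℤ) = ((2 * u * y : ℕ) : ℤ) := by push_cast; linarith
        exact_mod_cast this
      exact Nat.eq_of_mul_eq_mul_left (by omega) e3
    have h1 : B2.image z ⊆ (Icc 1 (4 * u * N1)).filter (fun m => (roughPart p m).Prime ∧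
        S ≤ ((m / roughPart p m : ℕ) : ℝ)) := by
      intro m hm
      rw [mem_image] at hm
      obtain ⟨N, hN, rfl⟩ := hm
      rw [hB2, mem_filter] at hN
      obtain ⟨k1, k2, k3, k4⟩ := hTm N hN.1
      rw [mem_filter, mem_Icc]
      refine ⟨⟨?_, ?_⟩, k4, hN.2⟩
      · by_contra h
        have h5 : z N = 0 := by omega
        rw [h5] at k4
        exact rough_zero p k4
      · have e1 := hzz N k1
        have h2 : 2 * u * (N0 - 1) ≤ 2 * u * N1 := Nat.mul_le_mul_left _ (by omega)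
        have h3 : 2 * u * N ≤ 2 * u * N1 := Nat.mul_le_mul_left _ k2
        have h4 : r ≤ (r.natAbs : ℤ) := by omega
        have h5 : r.natAbs ≤ 2 * u * N1 := by omega
        have h6 : r ≤ ((2 * u * N1 : ℕ) : ℤ) := h4.trans (Int.ofNat_le.2 h5)
        have h8 : ((2 * u * N : ℕ) : ℤ) ≤ ((2 * u * N1 : ℕ) : ℤ) := Int.ofNat_le.2 h3
        have h7 : ((z N : ℕ) : ℤ) ≤ ((4 * u * N1 : ℕ) : ℤ) := by
          rw [e1]; push_cast at h6 h8 ⊢; linarith
        exact_mod_cast h7
    have h2 : ((B2.image z).card : ℝ) ≤ (((Icc 1 (4 * u * N1)).filter (fun m => (roughPart p m).Prime ∧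
        S ≤ ((m / roughPart p m : ℕ) : ℝ))).card : ℝ) := by exact_mod_cast Finset.card_le_card h1
    rw [h0]
    have h3 : ((4 * u * N1 : ℕ) : ℝ) ≤ 32 * u * E := by
      push_cast
      have : (0 : ℝ) ≤ 4 * u := by positivity
      calc (4 * (u : ℝ)) * N1 ≤ (4 * u) * (8 * E) := mul_le_mul_of_nonneg_left hN1r this
        _ = _ := by ring
    exact (h2.trans (large_smooth_count p _ hS0)).trans (mul_le_mul h3 hSZ hSZ0 (by positivity))
  have hc3 : (G.card : ℝ) ≤ C2 * w2 * E := by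
    refine hgood G (fun N hN => ?_) (fun N hN => ?_)
    · rw [hG, mem_filter] at hN
      obtain ⟨k1, k2, _, _⟩ := hTm N hN.1
      exact mem_Icc.2 ⟨k1, k2⟩
    · rw [hG, mem_filter] at hN
      obtain ⟨k1, k2, k3, k4⟩ := hTm N hN.1
      exact ⟨⟨k3, hN.2.1⟩, k4, hN.2.2⟩
  have h1 : (T.card : ℝ) ≤ B1.card + B2.card + G.card := by
    have h2 := (Finset.card_le_card hsub).trans (Finset.card_union_le _ _)
    have h3 := Finset.card_union_le B1 B2
    have h4 : T.card ≤ B1.card + B2.card + G.card := by omega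
    exact_mod_cast h4
  calc (T.card : ℝ) ≤ B1.card + B2.card + G.card := h1
    _ ≤ 8 * E * w2 + 32 * u * E * w2 + C2 * w2 * E := by gcongr
    _ = _ := by ring

/-- **the pair bound for the same base.** -/
theorem same2 {a κ C κ' C' c : ℝ} (ha : 1 < a) (hκ0 : 0 ≤ κ) (hκ : κ < a) (hκ0' : 0 ≤ κ') (hκ' : κ' < a)
    {g g' : ℕ → ℝ} (hg : ∀ p, |g p| ≤ C * κ ^ p) (hg' : ∀ p, |g' p| ≤ C' * κ' ^ p) {u v : ℕ}
    (hu : 0 < u) (hv : 0 < v) (hc : v * Real.exp c = u) {Q : ℕ → Prop}
    (hsep : ∀ᶠ p : ℕ in atTop, Q p → (v : ℝ) ≤ v * g' p - u * g p ∨ v * g' p - u * g p ≤ -u) (b0 : ℝ) :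
    ∃ K : ℝ, 0 < K ∧ ∃ P : ℕ, ∀ p ≥ P, Q p →
      ∫ t in Set.Ioc b0 (b0 + 1), ff p (ysh a g p t) * ff p (ysh a g' p (t + c)) ≤
      K * (Real.log p / p) ^ 2 := by
  classical
  have ha0 : 0 < a := by linarith
  set L := Real.log a with hL
  have hLpos : 0 < L := Real.log_pos ha
  have hlog2 : 0 < Real.log 2 := Real.log_pos (by norm_num)
  set D := ⌈(L + 1) / Real.log 2⌉₊ with hD
  have hDle : L + 1 ≤ D * Real.log 2 := by
    have := Nat.le_ceil ((L + 1) / Real.log 2)
    rwa [div_le_iff₀ hlog2] at this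
  obtain ⟨C2, hC2, hG⟩ := near_u (b := 2 * u) (by omega) D (c0 := L / 2) (by positivity)
  have hZ := ZZ_le_exp (c := L / 32) (by positivity)
  have hsm := exp_small (c := 3 * L / 32) (by positivity)
  have hpert := pert8 ha0 hκ0 hκ hg (b0 - 1) (64 * (u + v))
  have hpert' := pert8 ha0 hκ0' hκ' hg' (b0 - 1) (64 * (u + v))
  have hpc := pert8 ha0 hκ0' hκ' hg' (b0 + c) 8
  have hconst := pert8 (κ := 1) (C := 2 * (u : ℝ) + 2 * v + 2) ha0 zero_le_one ha
    (g := fun _ => 2 * (u : ℝ) + 2 * v + 2) (fun p => by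
      rw [one_pow, mul_one, abs_of_nonneg (by positivity)]) (b0 - 1) 64
  have hsh := sh_of ha0 hκ0 hκ hg b0 (b0 + 1)
  have hlarge : ∀ᶠ p : ℕ in atTop, (|b0| + 32) * 2 / L < p :=
    tendsto_natCast_atTop_atTop.eventually_gt_atTop _
  have hlarge2 : ∀ᶠ p : ℕ in atTop, |b0| + 1 < (p : ℝ) :=
    tendsto_natCast_atTop_atTop.eventually_gt_atTop _
  obtain ⟨P, hP⟩ := eventually_atTop.1 (hG.and (hZ.and (hsm.and (hpert.and (hpert'.and (hpc.and
    (hconst.and (hsh.and (hlarge.and (hlarge2.and ((eventually_ge_atTop 3).and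
    ((eventually_ge_atTop (2 * v)).and hsep))))))))))))
  refine ⟨4 * (2 * u + 2 * v + 1) * (C2 + 8 + 32 * u), by positivity, P, fun p hp hQ => ?_⟩
  obtain ⟨hGp, hZp, hsmp, hpp, hpp', hpcp, hcp, hshp, hpl, hpl2, hp3, hpv, hsepp⟩ := hP p hp
  have hsepp := hsepp hQ
  have hp3' : (3 : ℝ) ≤ p := by exact_mod_cast hp3
  have hp0 : (0 : ℝ) < p := by linarith
  have hb0abs := neg_abs_le b0
  have hb0abs' := le_abs_self b0
  rw [div_lt_iff₀ hLpos] at hpl
  have hu1 : (1 : ℝ) ≤ u := by exact_mod_cast hu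
  have hv1 : (1 : ℝ) ≤ v := by exact_mod_cast hv
  set w := Real.log p / p with hw
  -- the basic scale
  set Y := L * p + b0 - 1 / 2 with hY
  have hYlo : L / 2 * p ≤ Y := by rw [hY]; linarith
  have hY16 : 16 ≤ Y := by rw [hY]; linarith
  set E := Real.exp Y with hE
  have hEpos : 0 < E := Real.exp_pos Y
  have hE17 : 17 ≤ E := by have := Real.add_one_le_exp Y; linarith
  set N0 := ⌊Real.exp Y⌋₊ with hN0
  set N1 := ⌊Real.exp (Y + 2)⌋₊ with hN1
  have hN0le : (N0 : ℝ) ≤ E := Nat.floor_le hEpos.le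
  have hN0gt : E < N0 + 1 := Nat.lt_floor_add_one _
  have hN1le : (N1 : ℝ) ≤ Real.exp (Y + 2) := Nat.floor_le (Real.exp_pos _).le
  obtain ⟨hee1, hee2, hhalf1, hhalf2, he3⟩ := exp_consts
  have hhalf0 : 0 < Real.exp (1 / 2) := Real.exp_pos _
  have hEe2 : Real.exp (Y + 2) = E * (Real.exp 1 * Real.exp 1) := by
    rw [hE, ← Real.exp_add, ← Real.exp_add]; ring_nf
  have hEe7 : E * 7 ≤ E * (Real.exp 1 * Real.exp 1) := mul_le_mul_of_nonneg_left hee1 hEpos.le
  have hEe8 : E * (Real.exp 1 * Real.exp 1) ≤ E * 7.5 := mul_le_mul_of_nonneg_left hee2 hEpos.le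
  have hN1r : (N1 : ℝ) ≤ 8 * E := by rw [hEe2] at hN1le; linarith
  have hN0r : E - 1 ≤ N0 := by linarith
  have hN02 : 2 ≤ N0 := by
    have : (2 : ℝ) < ((N0 + 1 : ℕ) : ℝ) := by push_cast; linarith
    have : 2 < N0 + 1 := by exact_mod_cast this
    omega
  have hN01 : N0 ≤ N1 := Nat.floor_mono (Real.exp_le_exp.2 (by linarith))
  -- size of the shifts
  have hE1 : Real.exp (L * p + (b0 - 1)) ≤ E := by
    rw [hE, hY]; exact Real.exp_le_exp.2 (by linarith)
  have huv0 : (0 : ℝ) < u + v := by linarith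
  have hgp : (u + v) * |g p| ≤ E / 64 := by
    push_cast at hpp
    have h1 := hpp.trans hE1
    linarith
  have hgp' : (u + v) * |g' p| ≤ E / 64 := by
    push_cast at hpp'
    have h1 := hpp'.trans hE1
    linarith
  have hcst : 2 * (u : ℝ) + 2 * v + 2 ≤ E / 64 := by
    rw [abs_of_nonneg (by positivity)] at hcp
    push_cast at hcp
    linarith
  have hgp1 : |g p| ≤ E / 64 := by
    have h1 : 1 * |g p| ≤ (u + v) * |g p| := mul_le_mul_of_nonneg_right (by linarith) (abs_nonneg _)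
    linarith
  set X := 2 * v * g' p - 2 * u * g p with hX
  have hXb : |X| ≤ E / 16 := by
    calc |X| ≤ |2 * v * g' p| + |2 * u * g p| := abs_sub _ _
      _ = 2 * (v * |g' p|) + 2 * (u * |g p|) := by
          rw [abs_mul, abs_mul (2 * (u : ℝ)), abs_of_nonneg (show (0 : ℝ) ≤ 2 * v by positivity),
            abs_of_nonneg (show (0 : ℝ) ≤ 2 * u by positivity)]
          ring
      _ ≤ 2 * (E / 64) + 2 * (E / 64) := by
          have h1 : (v : ℝ) * |g' p| ≤ (u + v) * |g' p| :=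
            mul_le_mul_of_nonneg_right (by linarith) (abs_nonneg _)
          have h2 : (u : ℝ) * |g p| ≤ (u + v) * |g p| :=
            mul_le_mul_of_nonneg_right (by linarith) (abs_nonneg _)
          linarith
      _ = _ := by ring
  set k0 := ⌊X⌋ with hk0
  have hk1 := Int.floor_le X
  have hk2 := Int.lt_floor_add_one X
  rw [← hk0] at hk1 hk2
  set R : Finset ℤ := (Finset.Icc (k0 - 2 * v) (k0 + 2 * u)).filter (fun r => r ≠ 0) with hR
  have hRm : ∀ r ∈ R, X - 1 - 2 * v < (r : ℝ) ∧ (r : ℝ) ≤ X + 2 * u := by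
    intro r hr
    rw [hR, Finset.mem_filter, Finset.mem_Icc] at hr
    have h1 : ((k0 - 2 * v : ℤ) : ℝ) ≤ r := by exact_mod_cast hr.1.1
    have h2 : (r : ℝ) ≤ ((k0 + 2 * u : ℤ) : ℝ) := by exact_mod_cast hr.1.2
    push_cast at h1 h2
    constructor <;> linarith
  have hRne : ∀ r ∈ R, r ≠ 0 := fun r hr => (Finset.mem_filter.1 hr).2
  have hRabs : ∀ r ∈ R, ((r.natAbs : ℕ) : ℝ) ≤ E / 8 := by
    intro r hr
    obtain ⟨h1, h2⟩ := hRm r hr
    have h3 := abs_le.1 hXb
    rw [Nat.cast_natAbs, Int.cast_abs, abs_le]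
    constructor <;> linarith
  have hRabs2 : ∀ r ∈ R, 2 * r.natAbs ≤ 2 * u * (N0 - 1) := by
    intro r hr
    have h1 := hRabs r hr
    have h2 : r.natAbs ≤ N0 - 1 := by
      have h3 : ((r.natAbs : ℕ) : ℝ) ≤ ((N0 - 1 : ℕ) : ℝ) := by
        rw [Nat.cast_sub (by omega)]
        push_cast
        linarith
      exact_mod_cast h3
    have h3 : 2 * (N0 - 1) ≤ 2 * u * (N0 - 1) := Nat.mul_le_mul_right _ (by omega)
    omega
  have hRD : ∀ r ∈ R, r.natAbs ≤ (2 * u) ^ (D * p) := by
    intro r hr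
    have h1 := hRabs r hr
    have h2 : E ≤ ((2 ^ (D * p) : ℕ) : ℝ) := by
      push_cast
      have e1 : (2 : ℝ) ^ (D * p) = Real.exp (D * p * Real.log 2) := by
        rw [← Real.exp_log (show (0 : ℝ) < 2 by norm_num), ← Real.exp_nat_mul]
        rw [Real.exp_log (show (0 : ℝ) < 2 by norm_num)]
        push_cast
        ring_nf
      rw [e1, hE, hY]
      refine Real.exp_le_exp.2 ?_
      have h3 := mul_le_mul_of_nonneg_right hDle hp0.le
      linarith
    have h3 : ((r.natAbs : ℕ) : ℝ) ≤ ((2 ^ (D * p) : ℕ) : ℝ) := by linarith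
    have h4 : r.natAbs ≤ 2 ^ (D * p) := by exact_mod_cast h3
    exact h4.trans (Nat.pow_le_pow_left (by omega) _)
  -- the exceptional integers
  set Fs := (Icc N0 N1).filter (fun N => (roughPart p N).Prime ∧ ∃ r ∈ R,
    (roughPart p ((((2 * u) ^ 1 * N : ℕ) : ℤ) + r).toNat).Prime) with hFs
  have hF1 : ∀ m ∈ Fs, 1 ≤ m := by
    intro m hm
    rw [hFs, mem_filter, mem_Icc] at hm
    omega
  -- pointwise bound
  have hpert8p : ((8 : ℕ) : ℝ) * |g p| ≤ Real.exp (Real.log a * p + (b0 - 1)) := by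
    have h1 := hpp
    push_cast at h1 ⊢
    have h2 : 8 * |g p| ≤ 64 * ((u : ℝ) + v) * |g p| :=
      mul_le_mul_of_nonneg_right (by linarith) (abs_nonneg _)
    exact h2.trans h1
  have hbp : ∀ t : ℝ, Real.exp t * a ^ p = Real.exp (L * p + t) := by
    intro t
    rw [Real.exp_add, hL, mul_comm (Real.log a), Real.exp_nat_mul, Real.exp_log ha0, mul_comm]
  have hpt : ∀ t ∈ Set.Ioc b0 (b0 + 1), ff p (ysh a g p t) * ff p (ysh a g' p (t + c)) ≤
      if NN (ysh a g p t) ∈ Fs then (1 : ℝ) else 0 := by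
    intro t ht
    unfold ff
    by_cases h1 : (roughPart p (NN (ysh a g p t))).Prime
    · by_cases h2 : (roughPart p (NN (ysh a g' p (t + c)))).Prime
      · rw [if_pos h1, if_pos h2]
        have hmem : NN (ysh a g p t) ∈ Fs := by
          obtain ⟨hx1, hx2, _⟩ := exp_ysh ha0 hpert8p (t := t) (by linarith [ht.1])
          obtain ⟨hx3, hx4, _⟩ := exp_ysh ha0 hpcp (t := t + c) (by linarith [ht.1])
          have hn1 := NN_bounds (ysh a g p t)
          have hn2 := NN_bounds (ysh a g' p (t + c))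
          rw [hx1] at hn1
          rw [hx3] at hn2
          set N := NN (ysh a g p t) with hN
          set N' := NN (ysh a g' p (t + c)) with hN'
          have hN'0 : N' ≠ 0 := by
            intro h0
            rw [h0] at h2
            exact rough_zero p h2
          have hXlo : Real.exp (1 / 2) * E < Real.exp t * a ^ p := by
            rw [hbp, hE, hY, ← Real.exp_add]
            exact Real.exp_lt_exp.2 (by linarith [ht.1])
          have hXhi : Real.exp t * a ^ p ≤ (Real.exp 1 * Real.exp (1 / 2)) * E := by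
            rw [hbp, hE, hY, ← Real.exp_add, ← Real.exp_add]
            exact Real.exp_le_exp.2 (by linarith [ht.2])
          have hgpa := abs_le.1 hgp1
          rw [hFs, mem_filter, mem_Icc]
          refine ⟨⟨?_, ?_⟩, h1, (2 * v * N' : ℕ) - (2 * u * N : ℕ), ?_, ?_⟩
          · have h3 : (N0 : ℝ) ≤ N := by
              have h4 : 8 / 5 * E ≤ Real.exp (1 / 2) * E := mul_le_mul_of_nonneg_right hhalf1 hEpos.le
              linarith [hn1.2]
            exact_mod_cast h3
          · rw [hN1, Nat.le_floor_iff (Real.exp_pos _).le]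
            refine hn1.1.le.trans ?_
            rw [hEe2]
            have h4 : (Real.exp 1 * Real.exp (1 / 2)) * E ≤ (3 * (17 / 10)) * E := by gcongr
            linarith
          · -- the difference
            set x := Real.exp t * a ^ p with hx
            have hx' : (v : ℝ) * (Real.exp (t + c) * a ^ p) = u * x := by
              rw [Real.exp_add, hx, ← hc]; ring
            have m1 : (v : ℝ) * N' < u * x + v * g' p := by
              have := mul_lt_mul_of_pos_left hn2.1 (show (0 : ℝ) < v by linarith)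
              linarith
            have m2 : u * x + v * g' p ≤ (v : ℝ) * N' + v := by
              have := mul_le_mul_of_nonneg_left hn2.2 (show (0 : ℝ) ≤ v by linarith)
              linarith
            have m3 : (u : ℝ) * N < u * x + u * g p := by
              have := mul_lt_mul_of_pos_left hn1.1 (show (0 : ℝ) < u by linarith)
              linarith
            have m4 : u * x + u * g p ≤ (u : ℝ) * N + u := by
              have := mul_le_mul_of_nonneg_left hn1.2 (show (0 : ℝ) ≤ u by linarith)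
              linarith
            rw [hR, Finset.mem_filter, Finset.mem_Icc]
            refine ⟨⟨?_, ?_⟩, ?_⟩
            · have h5 : ((k0 - 2 * v : ℤ) : ℝ) < (((2 * v * N' : ℕ) - (2 * u * N : ℕ) : ℤ) : ℝ) := by
                push_cast
                linarith
              have h6 : k0 - 2 * v < ((2 * v * N' : ℕ) : ℤ) - ((2 * u * N : ℕ) : ℤ) := by
                exact_mod_cast h5
              exact h6.le
            · have h5 : (((2 * v * N' : ℕ) - (2 * u * N : ℕ) : ℤ) : ℝ) < ((k0 + 2 * u + 1 : ℤ) : ℝ) := by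
                push_cast
                linarith
              have h6 : ((2 * v * N' : ℕ) : ℤ) - ((2 * u * N : ℕ) : ℤ) < k0 + 2 * u + 1 := by
                exact_mod_cast h5
              omega
            · intro h0
              have h5 : (((2 * v * N' : ℕ) : ℤ) : ℝ) = (((2 * u * N : ℕ) : ℤ) : ℝ) := by
                have h6 : ((2 * v * N' : ℕ) : ℤ) = ((2 * u * N : ℕ) : ℤ) := by linarith
                rw [h6]
              push_cast at h5
              rcases hsepp with h7 | h7 <;> linarith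
          · have e1 : (((2 * u) ^ 1 * N : ℕ) : ℤ) + (((2 * v * N' : ℕ) : ℤ) - ((2 * u * N : ℕ) : ℤ)) =
                ((2 * v * N' : ℕ) : ℤ) := by
              rw [pow_one]; ring
            rw [e1, Int.toNat_natCast, rough_mul (by omega) hN'0 hpv]
            exact h2
        rw [if_pos hmem]; norm_num
      · rw [if_neg h2, mul_zero]; split_ifs <;> norm_num
    · rw [if_neg h1, zero_mul]; split_ifs <;> norm_num
  have hmeasF : Measurable (fun u : ℝ => if NN u ∈ Fs then (1 : ℝ) else 0) :=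
    (measurable_from_nat (f := fun n : ℕ => if n ∈ Fs then (1 : ℝ) else 0)).comp measurable_NN
  have hmy : Measurable (fun t => ff p (ysh a g p t)) := (measurable_ff p).comp (measurable_ysh _ _ _)
  have hmy' : Measurable (fun t => ff p (ysh a g' p (t + c))) :=
    ((measurable_ff p).comp (measurable_ysh _ _ _)).comp (measurable_id.add_const c)
  have hint1 : IntegrableOn (fun t : ℝ => ff p (ysh a g p t) * ff p (ysh a g' p (t + c)))
      (Set.Ioc b0 (b0 + 1)) := by
    refine Measure.integrableOn_of_bounded (M := 1) (by simp) (hmy.mul hmy').aestronglyMeasurable ?_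
    refine Eventually.of_forall fun t => ?_
    have h1 := ff_nonneg p (ysh a g p t)
    have h2 := ff_nonneg p (ysh a g' p (t + c))
    have h3 := ff_le_one p (ysh a g p t)
    have h4 := ff_le_one p (ysh a g' p (t + c))
    rw [Real.norm_eq_abs, abs_of_nonneg (mul_nonneg h1 h2)]
    exact mul_le_one₀ h3 h2 h4
  have hint2 : IntegrableOn (fun t : ℝ => if NN (ysh a g p t) ∈ Fs then (1 : ℝ) else 0)
      (Set.Ioc b0 (b0 + 1)) := by
    refine Measure.integrableOn_of_bounded (M := 1) (by simp)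
      (hmeasF.comp (measurable_ysh _ _ _)).aestronglyMeasurable ?_
    refine Eventually.of_forall fun t => ?_
    split_ifs <;> simp
  have hstep1 : ∫ t in Set.Ioc b0 (b0 + 1), ff p (ysh a g p t) * ff p (ysh a g' p (t + c)) ≤
      2 * ∑ m ∈ Fs, 1 / (m : ℝ) := by
    have h1 := setIntegral_mono_on hint1 hint2 measurableSet_Ioc hpt
    have h2 := (Sh.cov hshp hp3 (s := b0) (t := b0 + 1) le_rfl (by linarith) le_rfl
      (F := fun u => if NN u ∈ Fs then (1 : ℝ) else 0) hmeasF (fun x => by split_ifs <;> norm_num)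
      (fun x => by split_ifs <;> norm_num)).1
    have h3 : ∫ u in Set.Ioc (ysh a g p b0) (ysh a g p (b0 + 1)),
        (if NN u ∈ Fs then (1 : ℝ) else 0) ≤ ∑ m ∈ Fs, 1 / (m : ℝ) := by
      calc _ = _ := integral_ind Fs hF1 _ _
        _ ≤ ∑ m ∈ Fs, 1 / (m : ℝ) := Finset.sum_le_sum fun m hm => integral_ind_le (hF1 m hm) _ _
    have h4 : 1 / (p : ℝ) ≤ 1 / 2 := one_div_le_one_div_of_le (by norm_num) (by linarith)
    have h5 : 0 ≤ ∫ t in Set.Ioc b0 (b0 + 1), (if NN (ysh a g p t) ∈ Fs then (1 : ℝ) else 0) :=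
      integral_nonneg fun t => by simp only [Pi.zero_apply]; split_ifs <;> norm_num
    have h6 : (1 - 1 / (p : ℝ)) *
        ∫ t in Set.Ioc b0 (b0 + 1), (if NN (ysh a g p t) ∈ Fs then (1 : ℝ) else 0) ≤
        ∑ m ∈ Fs, 1 / (m : ℝ) := le_trans h2 h3
    have h7 := mul_le_mul_of_nonneg_right (show 1 / 2 ≤ 1 - 1 / (p : ℝ) by linarith) h5
    linarith
  -- counting
  have hT : ∀ r ∈ R, ((((Icc N0 N1).filter (fun N => (roughPart p N).Prime ∧
      (roughPart p ((((2 * u) ^ 1 * N : ℕ) : ℤ) + r).toNat).Prime)).card : ℕ) : ℝ) ≤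
      (C2 + 8 + 32 * u) * w ^ 2 * E := by
    intro r hr
    exact count_T hu hN02 hN01 hN1r hEpos hC2 (hRabs2 r hr) hZp hYlo hsmp
      (fun S hS hSc => hGp r (hRne r hr) (hRD r hr) Y hYlo (by rw [pow_one]; exact hRabs2 r hr) S hS hSc)
  have hcardF : (Fs.card : ℝ) ≤ (2 * u + 2 * v + 1) * ((C2 + 8 + 32 * u) * w ^ 2 * E) := by
    have h1 : Fs ⊆ R.biUnion (fun r => (Icc N0 N1).filter (fun N => (roughPart p N).Prime ∧
        (roughPart p ((((2 * u) ^ 1 * N : ℕ) : ℤ) + r).toNat).Prime)) := by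
      intro N hN
      rw [hFs, mem_filter] at hN
      obtain ⟨k1, k2, r, hr, k3⟩ := hN
      rw [mem_biUnion]
      exact ⟨r, hr, mem_filter.2 ⟨k1, k2, k3⟩⟩
    have h2 : (Fs.card : ℝ) ≤ ∑ r ∈ R, ((((Icc N0 N1).filter (fun N => (roughPart p N).Prime ∧
        (roughPart p ((((2 * u) ^ 1 * N : ℕ) : ℤ) + r).toNat).Prime)).card : ℕ) : ℝ) := by
      exact_mod_cast (Finset.card_le_card h1).trans Finset.card_biUnion_le
    refine h2.trans ((Finset.sum_le_sum hT).trans ?_)
    rw [Finset.sum_const, nsmul_eq_mul]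
    have h3 : (R.card : ℝ) ≤ 2 * u + 2 * v + 1 := by
      have h4 : R.card ≤ 2 * u + 2 * v + 1 := by
        refine (Finset.card_filter_le _ _).trans ?_
        rw [Int.card_Icc]
        omega
      have h5 : (R.card : ℝ) ≤ ((2 * u + 2 * v + 1 : ℕ) : ℝ) := by exact_mod_cast h4
      refine h5.trans (le_of_eq ?_)
      push_cast; ring
    exact mul_le_mul_of_nonneg_right h3 (by positivity)
  have hsumF : ∑ m ∈ Fs, 1 / (m : ℝ) ≤ Fs.card * (2 / E) := by
    have c1 : ∀ m ∈ Fs, 1 / (m : ℝ) ≤ 2 / E := by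
      intro m hm
      rw [hFs, mem_filter, mem_Icc] at hm
      have c2 : (N0 : ℝ) ≤ m := by exact_mod_cast hm.1.1
      calc 1 / (m : ℝ) ≤ 1 / (E / 2) := one_div_le_one_div_of_le (by positivity) (by linarith)
        _ = _ := by field_simp
    calc ∑ m ∈ Fs, 1 / (m : ℝ) ≤ ∑ m ∈ Fs, 2 / E := Finset.sum_le_sum c1
      _ = Fs.card * (2 / E) := by rw [Finset.sum_const, nsmul_eq_mul]
  calc _ ≤ 2 * ∑ m ∈ Fs, 1 / (m : ℝ) := hstep1
    _ ≤ 2 * (Fs.card * (2 / E)) := by gcongr
    _ ≤ 2 * (((2 * u + 2 * v + 1) * ((C2 + 8 + 32 * u) * w ^ 2 * E)) * (2 / E)) := by gcongr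
    _ = _ := by field_simp; ring

end Pool.Agent.Zk53.CE
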