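import Mathlib
import Pool.Agent.Zk53.CE.F

set_option autoImplicit false

/-!
# The same base: almost surely only finitely many common exponents
-/

namespace Pool.Agent.Zk53.CE

open MeasureTheory Filter Topology
open Pool.Agent.W66X (ysh measurable_ysh pert8 exp_ysh exp_consts)
open Pool.Agent.H305R2 (roughPart NN ff measurable_NN measurable_ff ff_nonneg ff_le_one)
open Pool.Agent.H447R2.ML (ff_eq_floor ae_exp1)

/-- almost surely only finitely many exponents with `Q` are common, the same base -/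
theorem fin2s {a κ C κ' C' c : ℝ} (ha : 1 < a) (hκ0 : 0 ≤ κ) (hκ : κ < a) (hκ0' : 0 ≤ κ') (hκ' : κ' < a)
    {g g' : ℕ → ℝ} (hg : ∀ p, |g p| ≤ C * κ ^ p) (hg' : ∀ p, |g' p| ≤ C' * κ' ^ p) {u v : ℕ}
    (hu : 0 < u) (hv : 0 < v) (hc : v * Real.exp c = u) {Q : ℕ → Prop}
    (hsep : ∀ᶠ p : ℕ in atTop, Q p → (v : ℝ) ≤ v * g' p - u * g p ∨ v * g' p - u * g p ≤ -u) :
    ∀ᵐ t : ℝ, ∀ᶠ p : ℕ in atTop, Q p →
      ¬ (ff p (ysh a g p t) = 1 ∧ ff p (ysh a g' p (t + c)) = 1) := by
  have key : ∀ k : ℤ, ∀ᵐ t ∂(volume.restrict (Set.Ioc (k : ℝ) (k + 1))), ∀ᶠ p : ℕ in atTop, Q p →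
      ¬ (ff p (ysh a g p t) = 1 ∧ ff p (ysh a g' p (t + c)) = 1) := by
    intro k
    obtain ⟨K, hK, P, hP⟩ := same2 ha hκ0 hκ hκ0' hκ' hg hg' hu hv hc hsep k
    set μ := volume.restrict (Set.Ioc (k : ℝ) (k + 1)) with hμ
    set F : ℕ → ℝ → ℝ := fun p t => ff p (ysh a g p t) * ff p (ysh a g' p (t + c)) with hF
    have hF0 : ∀ p t, 0 ≤ F p t := fun p t => mul_nonneg (ff_nonneg _ _) (ff_nonneg _ _)
    have hF1 : ∀ p t, F p t ≤ 1 := fun p t => mul_le_one₀ (ff_le_one _ _) (ff_nonneg _ _) (ff_le_one _ _)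
    have hFm : ∀ p, Measurable (F p) := fun p =>
      ((measurable_ff p).comp (measurable_ysh _ _ _)).mul
        (((measurable_ff p).comp (measurable_ysh _ _ _)).comp (measurable_id.add_const c))
    have hFi : ∀ p, Integrable (F p) μ := by
      intro p
      refine Integrable.of_bound (hFm p).aestronglyMeasurable 1 (Eventually.of_forall fun t => ?_)
      rw [Real.norm_eq_abs, abs_of_nonneg (hF0 p t)]
      exact hF1 p t
    have hmeas : ∀ p, P ≤ p → Q p → μ {t | 1 ≤ F p t} ≤ ENNReal.ofReal (K * (Real.log p / p) ^ 2) := by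
      intro p hp hq
      have h1 := mul_meas_ge_le_integral_of_nonneg (Eventually.of_forall (hF0 p)) (hFi p) 1
      rw [one_mul] at h1
      have h2 := h1.trans (hP p hp hq)
      rw [Measure.real] at h2
      exact (ENNReal.le_ofReal_iff_toReal_le (measure_ne_top _ _) (by positivity)).2 h2
    have hsum : ∑' p : ℕ, μ {t | (P ≤ p ∧ Q p) ∧ 1 ≤ F p t} ≠ ⊤ := by
      have h1 : ∀ p : ℕ, μ {t | (P ≤ p ∧ Q p) ∧ 1 ≤ F p t} ≤
          ENNReal.ofReal (K * (Real.log p / p) ^ 2) := by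
        intro p
        by_cases hp : P ≤ p ∧ Q p
        · refine le_trans (measure_mono fun t ht => ?_) (hmeas p hp.1 hp.2)
          exact ht.2
        · have h0 : {t : ℝ | (P ≤ p ∧ Q p) ∧ 1 ≤ F p t} = ∅ := by
            ext t
            simp only [Set.mem_ofPred_eq, Set.mem_empty_iff_false, iff_false]
            exact fun h => hp h.1
          rw [h0, measure_empty]
          exact bot_le
      refine ne_top_of_le_ne_top ?_ (ENNReal.tsum_le_tsum h1)
      rw [← ENNReal.ofReal_tsum_of_nonneg (fun p => by positivity) (summable_logsq.mul_left K)]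
      exact ENNReal.ofReal_ne_top
    filter_upwards [ae_eventually_notMem hsum] with t ht
    filter_upwards [ht, eventually_ge_atTop P] with p hp hpP hq h
    refine hp ⟨⟨hpP, hq⟩, ?_⟩
    simp only [hF]
    rw [h.1, h.2, mul_one]
  have h1 : ∀ᵐ t ∂(volume.restrict (⋃ k : ℤ, Set.Ioc (k : ℝ) (k + 1))), ∀ᶠ p : ℕ in atTop, Q p →
      ¬ (ff p (ysh a g p t) = 1 ∧ ff p (ysh a g' p (t + c)) = 1) := by
    rw [ae_restrict_iUnion_iff]
    exact key
  rwa [iUnion_Ioc_intCast, Measure.restrict_univ] at h1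

/-- the same for the integral parts -/
theorem fin_floors {a κ C κ' C' c : ℝ} (ha : 1 < a) (hκ0 : 0 ≤ κ) (hκ : κ < a) (hκ0' : 0 ≤ κ')
    (hκ' : κ' < a) {g g' : ℕ → ℝ} (hg : ∀ p, |g p| ≤ C * κ ^ p) (hg' : ∀ p, |g' p| ≤ C' * κ' ^ p)
    {u v : ℕ} (hu : 0 < u) (hv : 0 < v) (hc : v * Real.exp c = u) {Q : ℕ → Prop}
    (hsep : ∀ᶠ p : ℕ in atTop, Q p → (v : ℝ) ≤ v * g' p - u * g p ∨ v * g' p - u * g p ≤ -u) :
    ∀ᵐ β : ℝ, 0 < β → ∀ᶠ p : ℕ in atTop, Q p →
      ¬ ((roughPart p ⌊β * a ^ p + g p⌋₊).Prime ∧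
        (roughPart p ⌊Real.exp c * β * a ^ p + g' p⌋₊).Prime) := by
  have ha0 : 0 < a := by linarith
  refine ae_exp1 (P := fun β => ∀ᶠ p : ℕ in atTop, Q p →
      ¬ ((roughPart p ⌊β * a ^ p + g p⌋₊).Prime ∧
        (roughPart p ⌊Real.exp c * β * a ^ p + g' p⌋₊).Prime)) ?_
  have h2 : ∀ {γ : ℝ} (_ : 0 < γ) (G : ℕ → ℝ) (d : ℝ), ∀ᵐ t : ℝ, ∀ p m : ℕ,
      Real.exp (t + d) * γ ^ p + G p ≠ m := by
    intro γ hγ G d
    have hnull : volume (⋃ p : ℕ, ⋃ m : ℕ, {t : ℝ | Real.exp (t + d) * γ ^ p + G p = m}) = 0 := by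
      refine Set.Countable.measure_zero ?_ volume
      refine Set.countable_iUnion fun p => Set.countable_iUnion fun m => ?_
      refine Set.Subsingleton.countable ?_
      intro s hs t ht
      simp only [Set.mem_ofPred_eq] at hs ht
      have h3 : Real.exp (s + d) * γ ^ p = Real.exp (t + d) * γ ^ p := by linarith
      have h4 := Real.exp_injective (mul_right_cancel₀ (pow_pos hγ p).ne' h3)
      linarith
    have hae : ∀ᵐ t : ℝ, t ∉ ⋃ p : ℕ, ⋃ m : ℕ, {t : ℝ | Real.exp (t + d) * γ ^ p + G p = m} := by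
      rw [ae_iff]
      refine measure_mono_null (fun t ht => ?_) hnull
      simpa only [Set.mem_ofPred_eq, not_not] using ht
    filter_upwards [hae] with t ht p m hm
    refine ht ?_
    simp only [Set.mem_iUnion]
    exact ⟨p, m, hm⟩
  filter_upwards [fin2s ha hκ0 hκ hκ0' hκ' hg hg' hu hv hc hsep, h2 ha0 g 0, h2 ha0 g' c] with t ht n1 n2
  filter_upwards [ht, pert8 ha0 hκ0 hκ hg t 8, pert8 ha0 hκ0' hκ' hg' (t + c) 8] with p hp q1 q2 hq h
  have x1 := exp_ysh ha0 q1 (t := t) le_rfl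
  have x2 := exp_ysh ha0 q2 (t := t + c) le_rfl
  refine hp hq ⟨?_, ?_⟩
  · have h3 := ff_eq_floor (p := p) x1.2.1 (fun m => by have := n1 p m; rwa [add_zero] at this)
    rw [if_pos h.1] at h3
    exact h3
  · have h3 := ff_eq_floor (p := p) x2.2.1 (n2 p)
    rw [Real.exp_add, mul_comm (Real.exp t)] at h3
    rw [if_pos h.2] at h3
    unfold ysh
    rw [Real.exp_add, mul_comm (Real.exp t)]
    exact h3

lemma sep_tendsto {x y A B : ℝ} (hx : 0 ≤ x) (hxy : x < y) (hy : 1 < y) (hB : 0 < B) :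
    Tendsto (fun p : ℕ => B * y ^ p - A * x ^ p) atTop atTop := by
  have hy0 : 0 < y := by linarith
  have h1 : Tendsto (fun p : ℕ => (x / y) ^ p) atTop (𝓝 0) :=
    tendsto_pow_atTop_nhds_zero_of_lt_one (by positivity) (by rwa [div_lt_one hy0])
  have h2 : Tendsto (fun p : ℕ => B - A * (x / y) ^ p) atTop (𝓝 (B - A * 0)) :=
    tendsto_const_nhds.sub (h1.const_mul A)
  rw [mul_zero, sub_zero] at h2
  have h3 := (tendsto_pow_atTop_atTop_of_one_lt hy).atTop_mul_pos hB h2
  refine h3.congr fun p => ?_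
  rw [div_pow]
  have : y ^ p ≠ 0 := (pow_pos hy0 p).ne'
  field_simp

/-- the shifts of two pairs with the same base are far apart -/
lemma sep {x y A B L : ℝ} (hA : 0 < A) (hB : 0 < B) (hxy : 1 < |x| ∨ 1 < |y|) (hne : x ≠ y ∨ A ≠ B) :
    ∀ᶠ p : ℕ in atTop, Odd p → L < |A * x ^ p - B * y ^ p| := by
  rcases lt_trichotomy |x| |y| with h | h | h
  · have hy : 1 < |y| := by rcases hxy with h1 | h1 <;> linarith
    filter_upwards [(sep_tendsto (A := A) (abs_nonneg x) h hy hB).eventually_gt_atTop L] with p hp _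
    have h1 := abs_sub_abs_le_abs_sub (B * y ^ p) (A * x ^ p)
    rw [abs_mul, abs_mul, abs_pow, abs_pow, abs_of_pos hA, abs_of_pos hB, abs_sub_comm] at h1
    linarith
  · have hx : 1 < |x| := by rcases hxy with h1 | h1 <;> linarith
    have hx0 : 0 < |x| := by linarith
    rcases abs_eq_abs.1 h with e | e
    · subst e
      have hAB : A ≠ B := hne.resolve_left (fun h => h rfl)
      have h1 : 0 < |A - B| := abs_pos.2 (sub_ne_zero.2 hAB)
      have h2 := (tendsto_pow_atTop_atTop_of_one_lt hx).const_mul_atTop h1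
      filter_upwards [h2.eventually_gt_atTop L] with p hp _
      rw [← sub_mul, abs_mul, abs_pow]
      exact hp
    · have h1 : 0 < A + B := by linarith
      have h2 := (tendsto_pow_atTop_atTop_of_one_lt hx).const_mul_atTop h1
      filter_upwards [h2.eventually_gt_atTop L] with p hp hodd
      have e1 : y ^ p = - x ^ p := by
        have : y = -x := by linarith
        rw [this, hodd.neg_pow]
      rw [e1, mul_neg, sub_neg_eq_add, ← add_mul, abs_mul, abs_pow, abs_of_pos h1]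
      exact hp
  · have hx : 1 < |x| := by rcases hxy with h1 | h1 <;> linarith
    filter_upwards [(sep_tendsto (A := B) (abs_nonneg y) h hx hA).eventually_gt_atTop L] with p hp _
    have h1 := abs_sub_abs_le_abs_sub (A * x ^ p) (B * y ^ p)
    rw [abs_mul, abs_mul, abs_pow, abs_pow, abs_of_pos hA, abs_of_pos hB] at h1
    linarith

end Pool.Agent.Zk53.CE
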